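import Pool.Agent.TH301.EQ.Max
import Pool.Agent.TH301.EQ.PubTame

/-!
# Energy equality from a local fractional maximal function of the enstrophy

The energy equality holds for a weak solution `u` of the Navier-Stokes equations in an arbitrary open
set (no energy inequality is assumed) if `∫ (m + δ^(-1/3)) ‖∇u‖² dt < ∞`, where for almost every `t`
the number `m(t)` is a bound of `((∫_I ‖∇u‖²)² / |I|)^(1/3)` for all intervals `I ∋ t` of length
at most `δ(t)`. The theorem sharpens the unpublished theorem `energy_eq_max` of the starting library,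
where `δ = T`.
-/

set_option autoImplicit false

open MeasureTheory Set Filter Topology
open scoped InnerProductSpace ENNReal ContDiff

namespace Pool.Agent.Results.MP_a38b17_an.EnstrophyMaximal

open H772R2.NS.Pub

/-- Let `u` be a weak solution of the Navier-Stokes equations in an open set `Ω ⊆ ℝ³` (no energy
inequality is assumed), with gradient `G` and force `f`. Let `m ≥ 0` and `δ > 0` be functions of time
with `∫ (m + δ^(-1/3)) ‖G‖² < ∞`, such that for almost every `t`
`(∫_x^y ‖G‖²)² ≤ m(t)³ (y - x)` for all `0 ≤ x ≤ t ≤ y ≤ T` with `y - x ≤ δ(t)`. Then the energy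
equality holds: the energy defect is zero at all times in `[0,T]`. -/
theorem result {Ω : Set R3} (hΩ : IsOpen Ω) {ν T : ℝ} (hν : 0 < ν) (hT : 0 < T)
    {u : ℝ → L2 Ω R3} {G : ℝ → L2 Ω Mat} {f : ℝ → L2 Ω R3} (hu : IsWeakSolution Ω ν T u G f)
    {m δ : ℝ → ℝ} (hm : ∀ t, 0 ≤ m t) (hδ : ∀ t, 0 < δ t)
    (hint : IntegrableOn (fun t => (m t + δ t ^ (-(1 / 3) : ℝ)) * ‖G t‖ ^ 2) (Ioo 0 T))
    (hyp : ∀ᵐ t ∂(volume.restrict (Ioo 0 T)), ∀ x y, 0 ≤ x → x ≤ t → t ≤ y → y ≤ T →
      y - x ≤ δ t → (∫ τ in x..y, ‖G τ‖ ^ 2) ^ 2 ≤ m t ^ 3 * (y - x)) :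
    ∀ t ∈ Icc 0 T, energyDefect ν u G f t = 0 := by
  intro t ht
  rw [Pool.Agent.TH301.EQ.pub_defect_eq hΩ hν.le hT hu ht]
  have hu' := toNS hu
  obtain ⟨M, hM⟩ := hu'.bdd
  have S := hu'.toSol (Ω := (Ω : Set H772R2.NS.E3)) hΩ hν.le hT hM
  have hGi : IntervalIntegrable (fun t => ‖G t‖ ^ 2) volume 0 T := by
    rw [intervalIntegrable_iff_integrableOn_Ioc_of_le hT.le]
    exact S.G2
  set E : ℝ := ∫ τ in (0 : ℝ)..T, ‖G τ‖ ^ 2 with hE
  have hE0 : 0 ≤ E := intervalIntegral.integral_nonneg hT.le fun τ _ => by positivity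
  set K : ℝ := (E ^ 2) ^ (1 / 3 : ℝ) with hK
  have hK0 : 0 ≤ K := by positivity
  have hK3 : K ^ 3 = E ^ 2 := by
    rw [hK, ← Real.rpow_natCast, ← Real.rpow_mul (by positivity)]
    norm_num
  have hd : ∀ t, 0 ≤ δ t ^ (-(1 / 3) : ℝ) := fun t => Real.rpow_nonneg (hδ t).le _
  have hd3 : ∀ t, (δ t ^ (-(1 / 3) : ℝ)) ^ 3 * δ t = 1 := by
    intro t
    rw [← Real.rpow_natCast, ← Real.rpow_mul (hδ t).le]
    norm_num
    rw [Real.rpow_neg_one]
    exact inv_mul_cancel₀ (hδ t).ne'
  have key := Pool.Agent.TH301.EQ.energy_eq_max (Ω := (Ω : Set H772R2.NS.E3)) hΩ hν.le hT hu'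
    (m := fun t => (1 + K) * (m t + δ t ^ (-(1 / 3) : ℝ)))
    (fun t => mul_nonneg (by linarith) (add_nonneg (hm t) (hd t)))
    (by
      have := (hint : Integrable _ (volume.restrict (Ioo 0 T))).const_mul (1 + K)
      refine this.congr (Filter.Eventually.of_forall fun t => ?_)
      exact (mul_assoc _ _ _).symm)
    (by
      filter_upwards [hyp, ae_restrict_mem measurableSet_Ioo] with t ht htI x y hx hxt hty hy
      have hxy : 0 ≤ y - x := by linarith
      have h0 := hm t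
      have h1 := hd t
      have h2 : m t ^ 3 ≤ ((1 + K) * (m t + δ t ^ (-(1 / 3) : ℝ))) ^ 3 := by
        refine pow_le_pow_left₀ h0 ?_ 3
        nlinarith [mul_nonneg hK0 (add_nonneg h0 h1)]
      have h3 : (K * δ t ^ (-(1 / 3) : ℝ)) ^ 3
          ≤ ((1 + K) * (m t + δ t ^ (-(1 / 3) : ℝ))) ^ 3 := by
        refine pow_le_pow_left₀ (mul_nonneg hK0 h1) ?_ 3
        nlinarith [mul_nonneg hK0 h0]
      rcases le_or_gt (y - x) (δ t) with h | h
      · exact (ht x y hx hxt hty hy h).trans (mul_le_mul_of_nonneg_right h2 hxy)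
      · have e1 : ∫ τ in x..y, ‖G τ‖ ^ 2 ≤ E := by
          have hsub : IntervalIntegrable (fun t => ‖G t‖ ^ 2) volume x y :=
            hGi.mono_set (by
              rw [uIcc_of_le (hxt.trans hty), uIcc_of_le hT.le]
              exact Icc_subset_Icc hx hy)
          exact intervalIntegral.integral_mono_interval hx (hxt.trans hty) hy
            (Filter.Eventually.of_forall fun τ => by positivity) hGi
        have e0 : 0 ≤ ∫ τ in x..y, ‖G τ‖ ^ 2 :=
          intervalIntegral.integral_nonneg (hxt.trans hty) fun τ _ => by positivity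
        have e2 : (∫ τ in x..y, ‖G τ‖ ^ 2) ^ 2 ≤ E ^ 2 := pow_le_pow_left₀ e0 e1 2
        have e3 : E ^ 2 ≤ (K * δ t ^ (-(1 / 3) : ℝ)) ^ 3 * (y - x) := by
          have a1 : (K * δ t ^ (-(1 / 3) : ℝ)) ^ 3 * δ t = E ^ 2 := by
            rw [mul_pow, hK3, mul_assoc, hd3, mul_one]
          rw [← a1]
          exact mul_le_mul_of_nonneg_left h.le (by positivity)
        exact e2.trans (e3.trans (mul_le_mul_of_nonneg_right h3 hxy)))
  have := key t ht
  rw [← this]
  exact (H772R2.NS.energyDefect_eq (Ω := (Ω : Set H772R2.NS.E3)) hΩ hν.le hT hu' ht).symm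

end Pool.Agent.Results.MP_a38b17_an.EnstrophyMaximal
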