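import Pool.Agent.X96.HW.En
import Pool.Agent.TH340.FF.LH
import Pool.Agent.H772R2.NS.PubBridge

/-!
# Energy equality for velocities with Hardy weights, without smallness

The energy equality holds for a weak solution `u` of the Navier-Stokes equations in an arbitrary
bounded open set `Ω ⊆ ℝ³` (no energy inequality is assumed) if at almost every time `t` the velocity
is a sum `u = a + w`, where `|w| ≤ C √W + g(t)` and where the strain of `a` is, from one side only,
bounded by `C W + b(t)`: `σ S(a) ≥ -(C W + b(t))` and `σ div a ≤ C W + b(t)` for a sign `σ`. Here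
`C` is an arbitrary constant, `g²` and `b` are integrable in time, `W` is a Hardy weight, that is,
`∫ W φ² ≤ ∫ |∇φ|²` for the test functions in `Ω`, and `W`, `a`, `σ` may depend on time. (Hardy
weights are `1 / (4 d²)` in convex sets, `d` the distance to the boundary, `1 / (4 |x - z|²)`, and
others, see `Pool.Agent.X96.HW.Ex` and `Cen`.) So a one-sided bound of the strain by
`C / d² + C / |x - z(t)|² + b(t)` is sufficient; nothing is assumed on the integrability of `a`.

At each time one of the alternatives of `MP_a38b17_an.PairEnergyEquality` may hold instead: one-sided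
bounds for pairs of particles, or a bound in `L⁴`.
-/

set_option autoImplicit false

open MeasureTheory Set
open scoped InnerProductSpace ENNReal ContDiff

namespace Pool.Agent.Results.MP_a38b17_an.HardyEnergyEquality

open H772R2.NS.Pub Pool.Agent.TH340.FF Pool.Agent.X96.HW

/-- Let `u` be a weak solution of the Navier-Stokes equations in a bounded open set `Ω ⊆ ℝ³`
(no energy inequality is assumed), with gradient `G` and force `f`. Let `C ≥ 0` be a number, and
let `g, B, b ≥ 0`, `r > 0` be functions of time such that `g²`, `B + C / r²` and `b` are integrable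
on `(0,T)`. Suppose that for almost every `t ∈ (0,T)`
* `SplitOne Ω C (g t) (b t) (u t)` holds, or
* particles at distance less than `r(t)` approach slowly, with the constants `C` and `B(t)`, or
* they separate slowly, with these constants, or
* `‖u(t)‖⁴_{L⁴(Ω)} ≤ b(t)`.
Then the energy equality holds: the energy defect is zero at all times in `[0,T]`. -/
theorem result {Ω : Set R3} (hΩ : IsOpen Ω) (hbd : Bornology.IsBounded Ω) {ν T C : ℝ}
    (hν : 0 < ν) (hT : 0 < T) (hC : 0 ≤ C)
    {u : ℝ → L2 Ω R3} {G : ℝ → L2 Ω Mat} {f : ℝ → L2 Ω R3} (hu : IsWeakSolution Ω ν T u G f)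
    {g B r b : ℝ → ℝ} (hg : ∀ t, 0 ≤ g t) (hB : ∀ t, 0 ≤ B t) (hr : ∀ t, 0 < r t)
    (hb : ∀ t, 0 ≤ b t) (hintg : IntegrableOn (fun t => g t ^ 2) (Ioo 0 T))
    (hint : IntegrableOn (fun t => B t + C / r t ^ 2) (Ioo 0 T)) (hintb : IntegrableOn b (Ioo 0 T))
    (hyp : ∀ᵐ t ∂(volume.restrict (Ioo 0 T)),
      SplitOne Ω C (g t) (b t) (u t).fn ∨
      Approach C (B t) (r t) (u t) ∨ Separate C (B t) (r t) (u t) ∨
      norm4 (u t) ^ 4 ≤ ENNReal.ofReal (b t)) :
    ∀ t ∈ Icc 0 T, energyDefect ν u G f t = 0 := by
  have hq : ∀ t, 0 ≤ C / r t ^ 2 := fun t => by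
    have := hr t
    positivity
  have hint4 : IntegrableOn (fun t => 4 * (B t + C / r t ^ 2) + b t) (Ioo 0 T) := by
    have h1 : Integrable (fun t => B t + C / r t ^ 2) (volume.restrict (Ioo 0 T)) := hint
    have h2 : Integrable b (volume.restrict (Ioo 0 T)) := hintb
    exact (h1.const_mul 4).add h2
  have key := energy_hardy (Ω := (Ω : Set H772R2.NS.E3)) hΩ hbd hν.le hT hC (toNS hu)
    (g := g) (b := fun t => 4 * (B t + C / r t ^ 2) + b t) hg hintg
    (fun t => by
      have h1 := hB t
      have h2 := hq t
      have h3 := hb t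
      positivity)
    hint4
    (by
      filter_upwards [hyp, ae_restrict_mem measurableSet_Ioo] with t ht _
      have h1 := hB t
      have h2 := hq t
      have h3 := hb t
      have h4 : B t + 4 * C / r t ^ 2 ≤ 4 * (B t + C / r t ^ 2) + b t := by
        have e1 : 4 * C / r t ^ 2 = 4 * (C / r t ^ 2) := by ring
        rw [e1]
        linarith
      rcases ht with ht | ht | ht | ht
      · refine Or.inl ?_
        obtain ⟨W, a, D, σ, k1, k2, k3, k4, k5⟩ := ht
        refine ⟨W, a, D, σ, k1, k2, k3, k4, ?_⟩
        filter_upwards [k5] with x hx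
        refine ⟨fun ξ => (hx.1 ξ).trans ?_, hx.2.trans ?_⟩
        · refine mul_le_mul_of_nonneg_right ?_ (sq_nonneg _)
          linarith
        · linarith
      · exact Or.inr (Or.inl ⟨B t, r t, h1, hr t, h4, locBd_of_approach ht⟩)
      · exact Or.inr (Or.inr (Or.inl ⟨B t, r t, h1, hr t, h4, locBd_of_separate ht⟩))
      · refine Or.inr (Or.inr (Or.inr (le_trans ht (ENNReal.ofReal_le_ofReal ?_))))
        linarith)
  exact key

end Pool.Agent.Results.MP_a38b17_an.HardyEnergyEquality
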